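import Mathlib

set_option autoImplicit false

open Set

namespace Pool.Agent.Results.MP_ca57f4_an.Counter

/-- Euclidean norm of a lattice point. -/
noncomputable def nrm (z : ℤ × ℤ) : ℝ := √((z.1 : ℝ) ^ 2 + (z.2 : ℝ) ^ 2)

/-- The lattice points of the line `γ_z`: for `z ≠ 0` the line through `z` perpendicular to `z`,
for `z = 0` the line through `0` with direction `w / |w|`. -/
def line (w z : ℤ × ℤ) : Set (ℤ × ℤ) :=
  if z = 0 then {y | ∃ t : ℝ, (y.1 : ℝ) = t * (w.1 / nrm w) ∧ (y.2 : ℝ) = t * (w.2 / nrm w)}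
  else {y | ∃ t : ℝ, (y.1 : ℝ) = z.1 + t * (-z.2 / nrm z) ∧ (y.2 : ℝ) = z.2 + t * (z.1 / nrm z)}

lemma two_pow_sol (k : ℕ) : ∀ a b c d : ℤ, a ^ 2 + b ^ 2 = 2 ^ k → c ^ 2 + d ^ 2 = 2 ^ k →
    (c = a ∧ d = b) ∨ (c = -a ∧ d = -b) ∨ (c = -b ∧ d = a) ∨ (c = b ∧ d = -a) := by
  have ev : ∀ a b n : ℤ, a ^ 2 + b ^ 2 = n * 2 →
      ∃ p q : ℤ, a = p - q ∧ b = p + q ∧ p ^ 2 + q ^ 2 = n := fun a b n h => by
    have h1 : Even ((a + b) ^ 2) := ⟨n + a * b, by linear_combination h⟩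
    obtain ⟨p, hp⟩ := (Int.even_pow.1 h1).1
    refine ⟨p, p - a, by ring, by linarith, ?_⟩
    have : b = 2 * p - a := by linarith
    subst this
    nlinarith
  induction k with
  | zero =>
    intro a b c d h1 h2
    have : -1 ≤ a ∧ a ≤ 1 ∧ -1 ≤ b ∧ b ≤ 1 ∧ -1 ≤ c ∧ c ≤ 1 ∧ -1 ≤ d ∧ d ≤ 1 := by
      refine ⟨?_, ?_, ?_, ?_, ?_, ?_, ?_, ?_⟩ <;> nlinarith
    obtain ⟨a1, a2, b1, b2, c1, c2, d1, d2⟩ := this
    interval_cases a <;> interval_cases b <;> interval_cases c <;> interval_cases d <;>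
      simp_all
  | succ k ih =>
    intro a b c d h1 h2
    rw [pow_succ] at h1 h2
    obtain ⟨p, q, rfl, rfl, e1⟩ := ev a b (2 ^ k) (by linear_combination h1)
    obtain ⟨r, s, rfl, rfl, e2⟩ := ev c d (2 ^ k) (by linear_combination h2)
    have := ih p q r s e1 e2
    omega

open Classical in
/-- `(-1/2)^k` at `2^k`, and `0` elsewhere. -/
noncomputable def phi (n : ℤ) : ℝ := if h : ∃ k : ℕ, n = 2 ^ k then (-1 / 2) ^ h.choose else 0

lemma phi_pow (k : ℕ) : phi (2 ^ k) = (-1 / 2) ^ k := by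
  have h : ∃ j : ℕ, (2 : ℤ) ^ k = 2 ^ j := ⟨k, rfl⟩
  rw [phi, dif_pos h, ← pow_right_injective₀ (by norm_num) (by norm_num) h.choose_spec]

lemma phi_ne {n : ℤ} (h : phi n ≠ 0) : ∃ k : ℕ, n = 2 ^ k := by
  by_contra h'; exact h (dif_neg h')

lemma phi_two (n : ℤ) : phi (2 * n) = -1 / 2 * phi n := by
  by_cases h : ∃ k : ℕ, n = 2 ^ k
  · obtain ⟨k, rfl⟩ := h
    rw [← pow_succ', phi_pow, phi_pow, pow_succ']
  · rw [show phi n = 0 from dif_neg h, mul_zero]
    by_contra h'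
    obtain ⟨k, hk⟩ := phi_ne h'
    rcases k with _ | k
    · omega
    · exact h ⟨k, by rw [pow_succ] at hk; omega⟩

lemma phi_le {n : ℤ} (hn : 0 ≤ n) : |phi n| ≤ 1 / n := by
  by_cases h : phi n = 0
  · rw [h, abs_zero]; positivity
  · obtain ⟨k, rfl⟩ := phi_ne h
    rw [phi_pow, abs_pow]; norm_num [abs_div]; simp

/-- The function away from the origin. -/
noncomputable def g (y : ℤ × ℤ) : ℝ := phi (y.1 ^ 2 + y.2 ^ 2)

lemma nsq_pos {z : ℤ × ℤ} (hz : z ≠ 0) : 0 < z.1 ^ 2 + z.2 ^ 2 := by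
  by_contra h
  exact hz (Prod.ext (by simp only [Prod.fst_zero]; nlinarith)
    (by simp only [Prod.snd_zero]; nlinarith))

lemma nrm_pos {z : ℤ × ℤ} (hz : z ≠ 0) : 0 < nrm z :=
  Real.sqrt_pos.2 (by exact_mod_cast nsq_pos hz)

lemma g_zero : g 0 = 0 := by
  by_contra h
  obtain ⟨k, hk⟩ := phi_ne h
  have : (0 : ℤ) < 2 ^ k := by positivity
  simp at hk; omega

lemma perp {w z y : ℤ × ℤ} (hz : z ≠ 0) (hy : y ∈ line w z) :
    (y.1 - z.1) * z.1 + (y.2 - z.2) * z.2 = 0 := by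
  rw [line, if_neg hz] at hy
  obtain ⟨t, h1, h2⟩ := hy
  have : ((y.1 : ℝ) - z.1) * z.1 + (y.2 - z.2) * z.2 = 0 := by rw [h1, h2]; ring
  exact_mod_cast this

lemma mem_line (w : ℤ × ℤ) {z : ℤ × ℤ} (hz : z ≠ 0) (s : ℤ) :
    (z.1 - s * z.2, z.2 + s * z.1) ∈ line w z := by
  rw [line, if_neg hz]
  have := nrm_pos hz
  refine ⟨s * nrm z, ?_, ?_⟩ <;> push_cast <;> field_simp
  ring

lemma hasSum_ne (w : ℤ × ℤ) {z : ℤ × ℤ} (hz : z ≠ 0) (c : ℝ) :
    HasSum (fun y : line w z => if (y : ℤ × ℤ) = 0 then c else g y) 0 := by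
  have hp := nsq_pos hz
  have e : ∀ y : line w z, (if (y : ℤ × ℤ) = 0 then c else g y) = g y := fun y =>
    if_neg fun h => by have := perp hz y.2; rw [h] at this; simp at this; nlinarith
  simp only [e]
  have h0 : ∀ s s' : ℤ, (z.1 - s * z.2, z.2 + s * z.1) = (z.1 - s' * z.2, z.2 + s' * z.1) →
      s = s' := fun s s' h => by
    simp only [Prod.mk.injEq] at h
    have : (s - s') * (z.1 ^ 2 + z.2 ^ 2) = 0 := by
      linear_combination z.1 * h.2 - z.2 * h.1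
    rcases mul_eq_zero.1 this with h | h <;> omega
  set p : ℤ → line w z := fun s => ⟨_, mem_line w hz s⟩ with hpd
  have pi : Function.Injective p := fun s s' h => h0 s s' (congrArg Subtype.val h)
  have key : ∑ y ∈ ({0, 1, -1} : Finset ℤ).map ⟨p, pi⟩, g y = 0 := by
    rw [Finset.sum_map, Finset.sum_insert (by decide), Finset.sum_insert (by decide),
      Finset.sum_singleton]
    have e1 : g (p 0) = phi (z.1 ^ 2 + z.2 ^ 2) := by simp [hpd, g]
    have e2 : g (p 1) = phi (2 * (z.1 ^ 2 + z.2 ^ 2)) := by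
      simp only [hpd, g]; congr 1; ring
    have e3 : g (p (-1)) = phi (2 * (z.1 ^ 2 + z.2 ^ 2)) := by
      simp only [hpd, g]; congr 1; ring
    simp only [Function.Embedding.coeFn_mk, e1, e2, e3, phi_two]; ring
  rw [← key]
  refine hasSum_sum_of_ne_finset_zero fun y hy => ?_
  by_contra h
  obtain ⟨k, hk⟩ := phi_ne h
  have h1 := perp hz y.2
  have h2 := two_pow_sol k y.1.1 y.1.2 (2 * z.1 - y.1.1) (2 * z.2 - y.1.2) hk
    (by linear_combination hk - 4 * h1)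
  apply hy
  simp only [Finset.mem_map, Function.Embedding.coeFn_mk, hpd, Subtype.ext_iff, Prod.ext_iff]
  rcases h2 with h2 | h2 | h2 | h2
  · exact ⟨0, by simp, by omega, by omega⟩
  · exact absurd (Prod.ext (by simp only [Prod.fst_zero]; omega)
      (by simp only [Prod.snd_zero]; omega)) hz
  · exact ⟨-1, by simp, by omega, by omega⟩
  · exact ⟨1, by simp, by omega, by omega⟩

lemma summ {L : Set (ℤ × ℤ)} (c : ℤ × ℤ → ℤ) (hc : InjOn c L) (hb : ∀ y, c y ^ 2 ≤ y.1 ^ 2 + y.2 ^ 2)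
    (h0 : ∀ y ∈ L, c y = 0 → y = 0) : Summable fun y : L => g y := by
  have h1 : Summable fun n : ℤ => 1 / (n : ℝ) ^ 2 := Real.summable_one_div_int_pow.2 one_lt_two
  refine (h1.comp_injective hc.injective).of_norm_bounded fun y => ?_
  by_cases h : c y = 0
  · rw [h0 y y.2 h, g_zero, norm_zero]; simp only [Function.comp]; positivity
  · refine (phi_le (by positivity)).trans (one_div_le_one_div_of_le ?_ ?_)
    · have : ((c y : ℤ) : ℝ) ≠ 0 := by exact_mod_cast h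
      exact pow_pos (a := |((c y : ℤ) : ℝ)|) (abs_pos.2 this) 2 |>.trans_eq (sq_abs _)
    · exact_mod_cast hb y

lemma summ0 {w : ℤ × ℤ} (hw : w ≠ 0) : Summable fun y : line w 0 => g y := by
  have hn := nrm_pos hw
  have hl : ∀ y ∈ line w 0, y.1 * w.2 = y.2 * w.1 := fun y hy => by
    rw [line, if_pos rfl] at hy
    obtain ⟨t, h1, h2⟩ := hy
    have : (y.1 : ℝ) * w.2 = y.2 * w.1 := by rw [h1, h2]; ring
    exact_mod_cast this
  by_cases h : w.1 = 0
  · have h2 : w.2 ≠ 0 := fun h2 => hw (Prod.ext h h2)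
    have : ∀ y ∈ line w 0, y.1 = 0 := fun y hy => by simpa [h, h2] using hl y hy
    exact summ Prod.snd (fun y hy y' hy' e => Prod.ext ((this y hy).trans (this y' hy').symm) e)
      (fun y => by nlinarith [sq_nonneg y.1]) fun y hy e => Prod.ext (this y hy) e
  · refine summ Prod.fst (fun y hy y' hy' e => Prod.ext e ?_)
      (fun y => by nlinarith [sq_nonneg y.2]) fun y hy e => Prod.ext e ?_
    · exact mul_right_cancel₀ h (by rw [← hl y hy, ← hl y' hy', e])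
    · simpa [e, h] using hl y hy

theorem result (w : ℤ × ℤ) (hw : w ≠ 0) :
    ∃ f : ℤ × ℤ → ℂ, f ≠ 0 ∧
      (∃ ε : ℝ, 0 < ε ∧ ∃ C : ℝ, ∀ x : ℤ × ℤ, x ≠ 0 → ‖f x‖ ≤ C * nrm x ^ (-(1 + ε))) ∧
      ∀ z : ℤ × ℤ, HasSum (fun y : line w z => f y) 0 := by
  set c := -∑' y : line w 0, g y with hc
  refine ⟨fun y => ((if y = 0 then c else g y : ℝ) : ℂ), fun h => ?_,
    ⟨1, one_pos, 1, fun x hx => ?_⟩, fun z => ?_⟩
  · have := congrFun h (1, 0)
    have e := phi_pow 0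
    simp only [pow_zero] at e
    simp [g, e] at this
  · beta_reduce
    rw [if_neg hx, Complex.norm_real, one_mul, Real.rpow_neg (nrm_pos hx).le,
      show (1 + 1 : ℝ) = 2 by norm_num, Real.rpow_two, nrm, Real.sq_sqrt (by positivity)]
    simpa [g] using phi_le (nsq_pos hx).le
  · rw [← Complex.ofReal_zero, Complex.hasSum_ofReal]
    by_cases hz : z = 0
    · subst hz
      have m0 : (0 : ℤ × ℤ) ∈ line w 0 := by rw [line, if_pos rfl]; exact ⟨0, by simp, by simp⟩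
      have := (summ0 hw).hasSum.add (hasSum_ite_eq (⟨0, m0⟩ : line w 0) c)
      rw [hc, add_neg_cancel, ← hc] at this
      convert this using 2 with y
      by_cases h : (y : ℤ × ℤ) = 0
      · simp [h, g_zero, Subtype.ext_iff]
      · simp [h, Subtype.ext_iff]
    · exact hasSum_ne w hz c

end Pool.Agent.Results.MP_ca57f4_an.Counter
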